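import Mathlib

set_option autoImplicit false
open Function

namespace Pool.Agent.H.MP_b23a2c_al

universe u v

structure FIM (k : Type u) [Field k] (V : ℕ → Type v) [∀ n, AddCommGroup (V n)]
    [∀ n, Module k (V n)] where
  mp : ∀ {m n : ℕ}, (Fin m ↪ Fin n) → V m →ₗ[k] V n
  mp_id : ∀ n x, mp (Embedding.refl (Fin n)) x = x
  mp_comp : ∀ {l m n : ℕ} (f : Fin l ↪ Fin m) (g : Fin m ↪ Fin n) (x : V l),
    mp g (mp f x) = mp (f.trans g) x
  inj : ∀ {m n : ℕ} (f : Fin m ↪ Fin n), Injective (mp f)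

variable {k : Type u} [Field k] {V : ℕ → Type v} [∀ n, AddCommGroup (V n)] [∀ n, Module k (V n)]

structure Lim (F : FIM k V) (L : Type v) [AddCommGroup L] [Module k L] where
  ev : ∀ {n : ℕ}, (Fin n ↪ ℕ) → V n →ₗ[k] L
  act : (ℕ ↪ ℕ) → L →ₗ[k] L
  ev_mp : ∀ {m n : ℕ} (h : Fin m ↪ Fin n) (f : Fin n ↪ ℕ) (x : V m),
    ev f (F.mp h x) = ev (h.trans f) x
  act_ev : ∀ {n : ℕ} (f : Fin n ↪ ℕ) (g : ℕ ↪ ℕ) (x : V n), act g (ev f x) = ev (f.trans g) x
  surj : ∀ z, ∃ (n : ℕ) (x : V n), z = ev Fin.valEmbedding x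
  inj : ∀ {n : ℕ} (f : Fin n ↪ ℕ), Injective (ev f)

section construct
variable (F : FIM k V)

noncomputable abbrev tr (i j : ℕ) (h : i ≤ j) : V i →ₗ[k] V j := F.mp (Fin.castLEEmb h)

instance : DirectedSystem V (fun i j h => tr F i j h) where
  map_self i x := F.mp_id i x
  map_map _ _ _ _ _ x := F.mp_comp _ _ x

abbrev DL := Module.DirectLimit V (tr F)

def bd {n : ℕ} (f : Fin n ↪ ℕ) : ℕ := Finset.univ.sup f + 1

lemma lt_bd {n : ℕ} (f : Fin n ↪ ℕ) (i : Fin n) : f i < bd f :=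
  Nat.lt_succ_of_le (Finset.le_sup (f := f) (Finset.mem_univ i))

def res {n : ℕ} (f : Fin n ↪ ℕ) : Fin n ↪ Fin (bd f) :=
  ⟨fun i => ⟨f i, lt_bd f i⟩, fun _ _ h => f.injective (congrArg Fin.val h)⟩

noncomputable def ev0 {n : ℕ} (f : Fin n ↪ ℕ) : V n →ₗ[k] DL F :=
  Module.DirectLimit.of k ℕ V (tr F) (bd f) ∘ₗ F.mp (res f)

lemma ev0_eq {n N : ℕ} (f : Fin n ↪ ℕ) (f' : Fin n ↪ Fin N) (h : ∀ i, (f' i : ℕ) = f i) (x : V n) :
    ev0 F f x = Module.DirectLimit.of k ℕ V (tr F) N (F.mp f' x) := by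
  unfold ev0
  rw [LinearMap.comp_apply, ← Module.DirectLimit.of_f (hij := le_max_left (bd f) N),
    ← Module.DirectLimit.of_f (i := N) (hij := le_max_right (bd f) N), F.mp_comp, F.mp_comp]
  congr 3
  ext i
  simp [res, h]

lemma ev0_mp {m n : ℕ} (h : Fin m ↪ Fin n) (f : Fin n ↪ ℕ) (x : V m) :
    ev0 F f (F.mp h x) = ev0 F (h.trans f) x := by
  rw [ev0_eq F (h.trans f) (h.trans (res f)) (fun _ => rfl), ← F.mp_comp]
  rfl

noncomputable def act0 (g : ℕ ↪ ℕ) : DL F →ₗ[k] DL F :=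
  Module.DirectLimit.lift k ℕ V (tr F) (fun _ => ev0 F (Fin.valEmbedding.trans g))
    fun _ _ _ x => ev0_mp F _ _ x

noncomputable def lim0 : Lim F (DL F) where
  ev := ev0 F
  act := act0 F
  ev_mp := ev0_mp F
  act_ev f g x := by
    change act0 F g (Module.DirectLimit.of k ℕ V (tr F) (bd f) (F.mp (res f) x)) = _
    unfold act0
    rw [Module.DirectLimit.lift_of, ev0_mp]
    rfl
  surj z := by
    obtain ⟨n, x, rfl⟩ := Module.DirectLimit.exists_of z
    exact ⟨n, x, by rw [ev0_eq F _ (Embedding.refl _) (fun _ => rfl), F.mp_id]⟩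
  inj f := by
    rw [injective_iff_map_eq_zero]
    intro x hx
    obtain ⟨j, hj, h⟩ := Module.DirectLimit.of.zero_exact hx
    exact (injective_iff_map_eq_zero _).mp (F.inj _) _ ((injective_iff_map_eq_zero _).mp (F.inj _) _ h)

end construct

variable {F : FIM k V} {L : Type v} [AddCommGroup L] [Module k L] (D : Lim F L)

lemma Lim.act_act (g g' : ℕ ↪ ℕ) (z : L) : D.act g' (D.act g z) = D.act (g.trans g') z := by
  obtain ⟨n, x, rfl⟩ := D.surj z
  rw [D.act_ev, D.act_ev, D.act_ev]; rfl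

lemma Lim.act_refl (z : L) : D.act (Embedding.refl ℕ) z = z := by
  obtain ⟨n, x, rfl⟩ := D.surj z
  rw [D.act_ev]; rfl

def Lim.Inv (A : Submodule k L) : Prop := ∀ g, ∀ z ∈ A, D.act g z ∈ A

def Lim.gen (z : L) : Submodule k L := Submodule.span k (Set.range fun g => D.act g z)

lemma Lim.gen_inv (z : L) : D.Inv (D.gen z) := by
  intro g x hx
  have : (D.gen z).map (D.act g) ≤ D.gen z := by
    unfold Lim.gen
    rw [Submodule.map_span_le]
    rintro _ ⟨g', rfl⟩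
    exact Submodule.subset_span ⟨g'.trans g, (D.act_act _ _ _).symm⟩
  exact this ⟨x, hx, rfl⟩

lemma Lim.mem_gen (z : L) : z ∈ D.gen z := Submodule.subset_span ⟨_, D.act_refl z⟩

lemma Lim.gen_ne {z : L} (hz : z ≠ 0) : D.gen z ≠ ⊥ := fun h =>
  hz ((Submodule.mem_bot k).mp (h ▸ D.mem_gen z))

lemma Lim.gen_le {z : L} {A : Submodule k L} (hA : D.Inv A) (hz : z ∈ A) : D.gen z ≤ A := by
  unfold Lim.gen
  rw [Submodule.span_le]
  rintro _ ⟨g, rfl⟩
  exact hA g z hz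

lemma exists_ext {m : ℕ} (f : Fin m ↪ ℕ) : ∃ g : ℕ ↪ ℕ, Fin.valEmbedding.trans g = f := by
  refine ⟨⟨fun j => if h : j < m then f ⟨j, h⟩ else bd f + j, fun a b hab => ?_⟩, ?_⟩
  · by_cases ha : a < m <;> by_cases hb : b < m <;> simp only [ha, hb, dite_true, dite_false] at hab
    · simpa using f.injective hab
    · have := lt_bd f ⟨a, ha⟩; omega
    · have := lt_bd f ⟨b, hb⟩; omega
    · omega
  · ext i; simp

def sw (x y : ℕ) : ℕ ↪ ℕ := (Equiv.swap x y).toEmbedding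

noncomputable def Lim.E : ℕ → L →ₗ[k] L
  | 0 => LinearMap.id
  | r + 1 => Lim.E r ∘ₗ (LinearMap.id - D.act (sw (2 * r) (2 * r + 1)))

lemma Lim.E_succ (r : ℕ) (z : L) :
    D.E (r + 1) z = D.E r z - D.E r (D.act (sw (2 * r) (2 * r + 1)) z) := by
  simp [Lim.E]

lemma Lim.E_mem {A : Submodule k L} (hA : D.Inv A) (r : ℕ) : ∀ z ∈ A, D.E r z ∈ A := by
  induction r with
  | zero => exact fun z hz => hz
  | succ r ih =>
    intro z hz
    rw [D.E_succ]
    exact A.sub_mem (ih z hz) (ih _ (hA _ z hz))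

lemma Lim.E_comm (g : ℕ ↪ ℕ) (r : ℕ) : (∀ j < 2 * r, g j = j) →
    ∀ z, D.act g (D.E r z) = D.E r (D.act g z) := by
  induction r with
  | zero => exact fun _ _ => rfl
  | succ r ih =>
    intro hg z
    have ih' := ih fun j hj => hg j (by omega)
    rw [D.E_succ, D.E_succ, map_sub, ih', ih', D.act_act, D.act_act]
    congr 4
    ext j
    have h1 := hg (2 * r) (by omega)
    have h2 := hg (2 * r + 1) (by omega)
    simp only [sw, Embedding.trans_apply, Equiv.coe_toEmbedding]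
    rw [← g.injective.swap_apply, h1, h2]

lemma Lim.E_kill {n : ℕ} (x : V n) (i r : ℕ) : i < r → ∀ f : Fin n ↪ ℕ, (∀ j, f j / 2 ≠ i) →
    D.E r (D.ev f x) = 0 := by
  induction r with
  | zero => intro h; omega
  | succ r ih =>
    intro hi f hf
    rw [D.E_succ, D.act_ev]
    rcases (Nat.lt_succ_iff.mp hi).lt_or_eq with h | rfl
    · rw [ih h f hf, ih h, sub_zero]
      intro j
      have := hf j
      simp only [sw, Embedding.trans_apply, Equiv.coe_toEmbedding, Equiv.swap_apply_def]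
      split_ifs <;> omega
    · have : f.trans (sw (2 * i) (2 * i + 1)) = f := by
        ext j
        have := hf j
        simp only [sw, Embedding.trans_apply, Equiv.coe_toEmbedding]
        rw [Equiv.swap_apply_of_ne_of_ne] <;> omega
      rw [this, sub_self]

lemma Lim.E_kill' {n : ℕ} (x : V n) (f : Fin n ↪ ℕ) : D.E (n + 1) (D.ev f x) = 0 := by
  obtain ⟨i, hi, hi'⟩ : ∃ i ∈ Finset.range (n + 1), i ∉ Finset.univ.image fun j => f j / 2 :=
    Finset.exists_mem_notMem_of_card_lt_card (by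
      rw [Finset.card_range]
      exact Nat.lt_succ_of_le (Finset.card_image_le.trans (by simp)))
  exact D.E_kill x i _ (Finset.mem_range.mp hi) f fun j hj =>
    hi' (Finset.mem_image.mpr ⟨j, Finset.mem_univ _, hj⟩)

lemma Lim.E_swap {A : Submodule k L} (hA : D.Inv A) {q : ℕ} (hq : ∀ z ∈ A, D.E (q + 1) z = 0)
    {x y : ℕ} (hx : 2 * q ≤ x) (hy : 2 * q ≤ y) (hxy : x ≠ y) {z : L} (hz : z ∈ A) :
    D.E q (D.act (sw x y) z) = D.E q z := by
  let g1 := Equiv.swap (2 * q) x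
  let g : Equiv.Perm ℕ := Equiv.swap (g1 (2 * q + 1)) y * g1
  have h0 : 2 * q ≤ g1 (2 * q + 1) ∧ g1 (2 * q + 1) ≠ x := by
    simp only [g1, Equiv.swap_apply_def]
    split_ifs <;> omega
  have h1 : g (2 * q) = x := by
    simp only [g, Equiv.Perm.mul_apply]
    rw [show g1 (2 * q) = x from Equiv.swap_apply_left _ _,
      Equiv.swap_apply_of_ne_of_ne h0.2.symm hxy]
  have h2 : g (2 * q + 1) = y := by simp [g]
  have h3 : ∀ j < 2 * q, g.toEmbedding j = j := fun j hj => by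
    simp only [g, Equiv.coe_toEmbedding, Equiv.Perm.mul_apply]
    rw [show g1 j = j from Equiv.swap_apply_of_ne_of_ne (by omega) (by omega),
      Equiv.swap_apply_of_ne_of_ne (by omega) (by omega)]
  have h4 := hq _ (hA g.symm.toEmbedding z hz)
  rw [D.E_succ, sub_eq_zero] at h4
  have h5 := congrArg (D.act g.toEmbedding) h4
  rw [D.E_comm _ _ h3, D.E_comm _ _ h3, D.act_act, D.act_act, D.act_act] at h5
  have e1 : g.symm.toEmbedding.trans g.toEmbedding = Embedding.refl ℕ := by ext j; simp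
  have e2 : g.symm.toEmbedding.trans ((sw (2 * q) (2 * q + 1)).trans g.toEmbedding) = sw x y := by
    ext j
    simp only [sw, Embedding.trans_apply, Equiv.coe_toEmbedding]
    rw [← g.injective.swap_apply, h1, h2, Equiv.apply_symm_apply]
  rw [e1, e2, D.act_refl] at h5
  exact h5.symm

lemma Lim.E_pat {A : Submodule k L} (hA : D.Inv A) {q : ℕ} (hq : ∀ z ∈ A, D.E (q + 1) z = 0)
    {m : ℕ} {u : V m} (hu : ∀ f, D.ev f u ∈ A) (f' : Fin m ↪ ℕ) (c : ℕ) :
    ∀ f : Fin m ↪ ℕ, (Finset.univ.filter fun i => f i ≠ f' i).card = c →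
      (∀ i, min (f i) (2 * q) = min (f' i) (2 * q)) → D.E q (D.ev f u) = D.E q (D.ev f' u) := by
  induction c using Nat.strong_induction_on with
  | _ c ih =>
  intro f hc hp
  by_cases he : f = f'
  · rw [he]
  obtain ⟨i, hi⟩ : ∃ i, f i ≠ f' i := by
    by_contra h
    push Not at h
    exact he (DFunLike.ext _ _ h)
  have h1 := hp i
  rw [← D.E_swap hA hq (x := f i) (y := f' i) (by omega) (by omega) hi (hu f), D.act_ev]
  refine ih _ ?_ _ rfl fun j => ?_
  · rw [← hc]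
    refine Finset.card_lt_card ⟨fun j hj => ?_, fun h => ?_⟩
    · simp only [Finset.mem_filter, Finset.mem_univ, true_and] at hj ⊢
      intro h
      apply hj
      have hji : j ≠ i := by rintro rfl; exact hi h
      simp only [sw, Embedding.trans_apply, Equiv.coe_toEmbedding]
      rw [Equiv.swap_apply_of_ne_of_ne (f.injective.ne hji) (h ▸ f'.injective.ne hji), h]
    · have := h (show i ∈ _ by simpa using hi)
      simp [sw] at this
  · have := hp j
    simp only [sw, Embedding.trans_apply, Equiv.coe_toEmbedding, Equiv.swap_apply_def]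
    split_ifs <;> omega

theorem Lim.monolith (huni : ∀ A B, D.Inv A → D.Inv B → A ≠ ⊥ → B ≠ ⊥ → A ⊓ B ≠ ⊥)
    {z0 : L} (hz0 : z0 ≠ 0) : ∃ w : L, w ≠ 0 ∧ ∀ B, D.Inv B → B ≠ ⊥ → w ∈ B := by
  classical
  have hex : ∃ r, ∃ A, D.Inv A ∧ A ≠ ⊥ ∧ ∀ z ∈ A, D.E r z = 0 := by
    obtain ⟨n, x, rfl⟩ := D.surj z0
    refine ⟨n + 1, D.gen _, D.gen_inv _, D.gen_ne hz0, ?_⟩
    have : D.gen (D.ev Fin.valEmbedding x) ≤ LinearMap.ker (D.E (n + 1)) := by
      unfold Lim.gen
      rw [Submodule.span_le]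
      rintro _ ⟨g, rfl⟩
      simp only [SetLike.mem_coe, LinearMap.mem_ker, D.act_ev]
      exact D.E_kill' _ _
    exact fun z hz => this hz
  obtain ⟨A, hA, hA0, hAE⟩ := Nat.find_spec hex
  have hmin := fun r => Nat.find_min hex (m := r)
  obtain ⟨q, hq⟩ : ∃ q, Nat.find hex = q + 1 := by
    refine Nat.exists_eq_succ_of_ne_zero fun h => hA0 ?_
    rw [h] at hAE
    exact (Submodule.eq_bot_iff _).mpr hAE
  rw [hq] at hAE hmin
  obtain ⟨u', hu', hu0⟩ := Submodule.exists_mem_ne_zero_of_ne_bot hA0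
  obtain ⟨m, u, rfl⟩ := D.surj u'
  have hu : ∀ f, D.ev f u ∈ A := fun f => by
    obtain ⟨g, rfl⟩ := exists_ext f
    rw [← D.act_ev]; exact hA _ _ hu'
  let U := D.gen (D.ev Fin.valEmbedding u)
  have hfin : FiniteDimensional k (U.map (D.E q)) := by
    have : Nonempty (Fin m ↪ ℕ) := ⟨Fin.valEmbedding⟩
    let pat : (Fin m ↪ ℕ) → Fin m → Fin (2 * q + 1) := fun f i => ⟨min (f i) (2 * q), by omega⟩
    have h1 : (Set.range fun f : Fin m ↪ ℕ => D.E q (D.ev f u)).Finite := by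
      refine (Set.finite_range fun p => D.E q (D.ev (invFunOn pat Set.univ p) u)).subset ?_
      rintro _ ⟨f, rfl⟩
      refine ⟨pat f, D.E_pat hA hAE hu f _ _ rfl fun i => ?_⟩
      have := invFunOn_eq (f := pat) (s := Set.univ) (b := pat f) ⟨f, trivial, rfl⟩
      exact congrArg Fin.val (congrFun this i)
    have := FiniteDimensional.span_of_finite k h1
    refine Submodule.finiteDimensional_of_le 
      (S₂ := Submodule.span k (Set.range fun f : Fin m ↪ ℕ => D.E q (D.ev f u))) ?_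
    unfold U Lim.gen
    rw [Submodule.map_span_le]
    rintro _ ⟨g, rfl⟩
    exact Submodule.subset_span ⟨Fin.valEmbedding.trans g, by simp only [D.act_ev]⟩
  obtain ⟨W, ⟨hW, hW0, hWU⟩, hWmin⟩ := (measure fun W : Submodule k L =>
    Module.finrank k (W.map (D.E q))).wf.has_min {W | D.Inv W ∧ W ≠ ⊥ ∧ W ≤ U}
    ⟨U, D.gen_inv _, D.gen_ne hu0, le_rfl⟩
  obtain ⟨z, hz, hzE⟩ : ∃ z ∈ W, D.E q z ≠ 0 := by
    by_contra h
    push Not at h
    exact hmin q (by omega) ⟨W, hW, hW0, h⟩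
  refine ⟨_, hzE, fun B hB hB0 => ?_⟩
  have : FiniteDimensional k (W.map (D.E q)) :=
    Submodule.finiteDimensional_of_le (Submodule.map_mono hWU)
  have h1 := hWmin (B ⊓ W) ⟨fun g x hx => ⟨hB g x hx.1, hW g x hx.2⟩, huni _ _ hB hW hB0 hW0,
    inf_le_right.trans hWU⟩
  have h2 : (B ⊓ W).map (D.E q) = W.map (D.E q) :=
    Submodule.eq_of_le_of_finrank_le (Submodule.map_mono inf_le_right) (not_lt.mp h1)
  have h3 : D.E q z ∈ (B ⊓ W).map (D.E q) := h2 ▸ ⟨z, hz, rfl⟩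
  obtain ⟨b, hb, hb'⟩ := h3
  rw [← hb']
  exact D.E_mem hB q b hb.1

end Pool.Agent.H.MP_b23a2c_al
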