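import Pool.Agent.H.MP_b23a2c_al.Core
import Pool.Agent.Lib.helper4.Ramsey

set_option autoImplicit false
open Function

namespace Pool.Agent.H.MP_b23a2c_al

universe u v

variable {k : Type u} [Field k] {V : ℕ → Type v} [∀ n, AddCommGroup (V n)] [∀ n, Module k (V n)]
variable {F : FIM k V} {L : Type v} [AddCommGroup L] [Module k L] (D : Lim F L)

def Ft (d : ℕ) {m : ℕ} (t : Fin m → ℕ) (ht : StrictMono t) : Fin (d + m) ↪ ℕ :=
  ⟨fun j => if h : (j : ℕ) < d then j else d + t ⟨j - d, by omega⟩, fun a b hab => by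
    by_cases ha : (a : ℕ) < d <;> by_cases hb : (b : ℕ) < d <;>
      simp only [ha, hb, dite_true, dite_false] at hab
    · exact Fin.ext hab
    · omega
    · omega
    · have := ht.injective (add_left_cancel hab)
      simp only [Fin.mk.injEq] at this
      exact Fin.ext (by omega)⟩

lemma compress (d : ℕ) {m : ℕ} (f : Fin m ↪ ℕ) :
    ∃ (t : Fin m → ℕ) (ht : StrictMono t) (h : Fin m ↪ Fin (d + m)), h.trans (Ft d t ht) = f := by
  obtain ⟨T, hT, hc⟩ := Infinite.exists_superset_card_eq (Finset.univ.image fun i => f i - d) m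
    (Finset.card_image_le.trans (by simp))
  let t := T.orderEmbOfFin hc
  have : ∀ i, ∃ j, Ft d t t.strictMono j = f i := by
    intro i
    by_cases hi : f i < d
    · exact ⟨⟨f i, by omega⟩, by simp [Ft, hi]⟩
    · have h1 : f i - d ∈ Set.range t := by
        rw [Finset.range_orderEmbOfFin]
        exact hT (Finset.mem_image.mpr ⟨i, Finset.mem_univ _, rfl⟩)
      obtain ⟨a, ha⟩ := h1
      refine ⟨⟨d + a, by omega⟩, ?_⟩
      simp only [Ft, Embedding.coeFn_mk, add_lt_iff_neg_left, not_lt_zero, dite_false,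
        add_tsub_cancel_left, Fin.eta, ha]
      omega
  choose h hh using this
  exact ⟨t, t.strictMono, ⟨h, fun a b hab => f.injective (by rw [← hh, ← hh, hab])⟩,
    DFunLike.ext _ _ hh⟩

lemma circle_small {a : AddCircle (1 : ℚ)} (ha : a ≠ 0) (s : ℕ) :
    ∃ (K : ℕ) (col : AddCircle (1 : ℚ) → Fin (K + 1)), ∀ z z' : Fin s → AddCircle (1 : ℚ),
      (∀ i, col (z i) = col (z' i)) → a ≠ ∑ i, (z i - z' i) := by
  have : Fact ((0 : ℚ) < 1) := ⟨one_pos⟩
  let rep : AddCircle (1 : ℚ) → ℚ := fun z => AddCircle.equivIco 1 0 z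
  have hrep : ∀ z, ((rep z : ℚ) : AddCircle (1 : ℚ)) = z := fun z => AddCircle.coe_equivIco
  have h0 : ∀ z, 0 ≤ rep z := fun z => (AddCircle.equivIco 1 0 z).2.1
  have h1 : ∀ z, rep z < 1 := fun z => by simpa using (AddCircle.equivIco 1 0 z).2.2
  have ha0 : 0 < rep a := lt_of_le_of_ne (h0 a) fun h => ha (by rw [← hrep a, ← h]; simp)
  have ha1 := h1 a
  obtain ⟨K, hK⟩ := exists_nat_gt (max (s / rep a) (s / (1 - rep a)))
  have hK1 : (s : ℚ) < K * rep a := (div_lt_iff₀ ha0).mp (lt_of_le_of_lt (le_max_left _ _) hK)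
  have hK2 : (s : ℚ) < K * (1 - rep a) :=
    (div_lt_iff₀ (by linarith)).mp (lt_of_le_of_lt (le_max_right _ _) hK)
  have hK0 : (0 : ℚ) < K := by
    have : (0 : ℚ) ≤ s := Nat.cast_nonneg s
    by_contra h
    have : (K : ℚ) = 0 := le_antisymm (not_lt.mp h) (Nat.cast_nonneg K)
    rw [this] at hK1; linarith
  refine ⟨K, fun z => ⟨⌊K * rep z⌋₊, Nat.lt_succ_of_le (Nat.floor_le_of_le ?_)⟩, ?_⟩
  · have := h1 z; nlinarith
  intro z z' hc he
  have hd : ∀ i, |K * (rep (z i) - rep (z' i))| ≤ 1 := fun i => by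
    have e := congrArg Fin.val (hc i)
    simp only at e
    have a1 := Nat.floor_le (mul_nonneg hK0.le (h0 (z i)))
    have a2 := Nat.floor_le (mul_nonneg hK0.le (h0 (z' i)))
    have a3 := Nat.lt_floor_add_one (K * rep (z i))
    have a4 := Nat.lt_floor_add_one (K * rep (z' i))
    rw [e] at a1 a3
    rw [abs_le]; constructor <;> linarith
  have hsum : |K * ∑ i, (rep (z i) - rep (z' i))| ≤ s := by
    rw [Finset.mul_sum]
    refine (Finset.abs_sum_le_sum_abs _ _).trans ?_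
    refine (Finset.sum_le_sum fun i _ => hd i).trans (by simp)
  have hz : (((rep a - ∑ i, (rep (z i) - rep (z' i)) : ℚ)) : AddCircle (1 : ℚ)) = 0 := by
    have := map_sum (QuotientAddGroup.mk' (AddSubgroup.zmultiples (1 : ℚ)))
      (fun i => rep (z i) - rep (z' i)) Finset.univ
    simp only [QuotientAddGroup.mk'_apply, QuotientAddGroup.mk_sub] at this
    rw [QuotientAddGroup.mk_sub, this]
    simp only [hrep]
    exact sub_eq_zero.mpr he
  obtain ⟨n, hn⟩ := (AddCircle.coe_eq_zero_iff _).mp hz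
  rw [zsmul_one] at hn
  rw [abs_le] at hsum
  have b1 : (0 : ℚ) < n := by
    rw [hn]
    by_contra h
    nlinarith [hsum.2]
  have b2 : (n : ℚ) < 1 := by
    rw [hn]
    by_contra h
    nlinarith [hsum.1]
  have b3 : (0 : ℤ) < n := by exact_mod_cast b1
  have b4 : n < (1 : ℤ) := by exact_mod_cast b2
  omega

lemma Lim.not_mem {d : ℕ} (m : ℕ) {w0 : V d} (hw : D.ev Fin.valEmbedding w0 ≠ 0) :
    D.ev Fin.valEmbedding w0 ∉ Submodule.span k {z | ∃ (t t' : Fin m → ℕ) (ht : StrictMono t)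
      (ht' : StrictMono t') (y : V (d + m)), z = D.ev (Ft d t ht) y - D.ev (Ft d t' ht') y} := by
  intro hmem
  obtain ⟨s, c, g, hg⟩ := Submodule.mem_span_set'.mp hmem
  choose t t' ht ht' y hy using fun i => (g i).2
  obtain ⟨χ, hχ⟩ := CharacterModule.exists_character_apply_ne_zero_of_ne_zero hw
  obtain ⟨K, col, hcol⟩ := circle_small hχ s
  obtain ⟨N, hN⟩ : ∃ N, ∀ i a, t i a < N ∧ t' i a < N := by
    refine ⟨Finset.univ.sup (fun p : Fin s × Fin m => max (t p.1 p.2) (t' p.1 p.2)) + 1,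
      fun i a => ?_⟩
    have := Finset.le_sup (f := fun p : Fin s × Fin m => max (t p.1 p.2) (t' p.1 p.2))
      (Finset.mem_univ (i, a))
    simp only at this
    omega
  obtain ⟨M, hM⟩ := Pool.Agent.Lib.helper4.Ramsey.ram (Fin s → Fin (K + 1)) m N
  classical
  obtain ⟨Y, hY, hYc, hhom⟩ := hM ℕ (Finset.range M) (by simp)
    fun a i => if h : StrictMono a then col (χ (D.ev (Ft d a h) (c i • y i))) else 0
  let σ := Y.orderEmbOfFin hYc
  have hσ : ∀ a, σ a ∈ Y := Finset.orderEmbOfFin_mem Y hYc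
  have hσM : ∀ a, σ a < M := fun a => Finset.mem_range.mp (hY (hσ a))
  let G : ℕ ↪ ℕ := ⟨fun j => if j < d then j else if h : j - d < N then d + σ ⟨j - d, h⟩
      else d + M + j, fun a b hab => by
    by_cases ha : a < d <;> by_cases hb : b < d <;> by_cases ha' : a - d < N <;>
      by_cases hb' : b - d < N <;>
      simp only [ha, hb, ha', hb', dite_true, dite_false, if_true, if_false] at hab <;>
      try omega
    · have := σ.injective (add_left_cancel hab)
      simp only [Fin.mk.injEq] at this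
      omega
    · have := hσM ⟨a - d, ha'⟩; omega
    · have := hσM ⟨b - d, hb'⟩; omega⟩
  have hG0 : (Fin.valEmbedding : Fin d ↪ ℕ).trans G = Fin.valEmbedding := by
    ext j; simp [G]
  have hG1 : ∀ (a : Fin m → ℕ) (ha : StrictMono a) (haN : ∀ j, a j < N),
      ∃ (b : Fin m → ℕ) (hb : StrictMono b), (∀ j, b j ∈ Y) ∧ (Ft d a ha).trans G = Ft d b hb := by
    intro a ha haN
    refine ⟨fun j => σ ⟨a j, haN j⟩, fun i j hij => σ.strictMono (ha hij), fun j => hσ _, ?_⟩
    ext j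
    by_cases hj : (j : ℕ) < d
    · simp [G, Ft, hj]
    · simp [G, Ft, hj, haN]
  choose b hb hbY hbe using fun i => hG1 (t i) (ht i) fun j => (hN i j).1
  choose b' hb' hbY' hbe' using fun i => hG1 (t' i) (ht' i) fun j => (hN i j).2
  refine hcol (fun i => χ (D.ev (Ft d (b i) (hb i)) (c i • y i)))
    (fun i => χ (D.ev (Ft d (b' i) (hb' i)) (c i • y i))) (fun i => ?_) ?_
  · have := congrFun (hhom _ _ (hb i) (hb' i) (hbY i) (hbY' i)) i
    simpa [hb i, hb' i] using this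
  · have h1 := congrArg (D.act G) hg
    rw [D.act_ev, hG0] at h1
    rw [← h1, map_sum, map_sum]
    refine Finset.sum_congr rfl fun i _ => ?_
    rw [← map_sub]
    congr 1
    rw [hy i, map_smul, map_sub, D.act_ev, D.act_ev, hbe, hbe', map_smul, map_smul, smul_sub]

theorem Lim.finite (huni : ∀ A B, D.Inv A → D.Inv B → A ≠ ⊥ → B ≠ ⊥ → A ⊓ B ≠ ⊥) (m : ℕ) :
    Module.Finite k (V m) := by
  by_cases h0 : ∀ x : V m, x = 0
  · have : Subsingleton (V m) := ⟨fun a b => by rw [h0 a, h0 b]⟩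
    infer_instance
  push Not at h0
  obtain ⟨x0, hx0⟩ := h0
  have hne : ∀ x : V m, x ≠ 0 → D.ev Fin.valEmbedding x ≠ 0 := fun x hx h =>
    hx ((injective_iff_map_eq_zero _).mp (D.inj _) _ h)
  obtain ⟨w, hw, hmono⟩ := D.monolith huni (hne _ hx0)
  obtain ⟨d, w0, rfl⟩ := D.surj w
  obtain ⟨l, hl, hlN⟩ := Submodule.exists_le_ker_of_notMem (D.not_mem m hw)
  let Φ : V m →ₗ[k] ((Fin m ↪ Fin (d + m)) → k) :=
    LinearMap.pi fun h => l ∘ₗ D.ev (Ft d Fin.val Fin.val_strictMono) ∘ₗ F.mp h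
  refine Module.Finite.of_injective Φ ((injective_iff_map_eq_zero _).mpr fun x hx => ?_)
  by_contra hx'
  have h1 := hmono _ (D.gen_inv _) (D.gen_ne (hne x hx'))
  have h2 : D.gen (D.ev Fin.valEmbedding x) ≤ LinearMap.ker l := by
    unfold Lim.gen
    rw [Submodule.span_le]
    rintro _ ⟨g, rfl⟩
    simp only [SetLike.mem_coe, LinearMap.mem_ker, D.act_ev]
    obtain ⟨t, ht, h, he⟩ := compress d (Fin.valEmbedding.trans g : Fin m ↪ ℕ)
    have h3 := hlN (Submodule.subset_span ⟨t, Fin.val, ht, Fin.val_strictMono, F.mp h x, rfl⟩)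
    have h4 : l (D.ev (Ft d Fin.val Fin.val_strictMono) (F.mp h x)) = 0 := congrFun hx h
    rw [LinearMap.mem_ker, map_sub, h4, sub_zero, D.ev_mp, he] at h3
    exact h3
  exact hl (h2 h1)

def FIM.Closed (F : FIM k V) (A : ∀ n, Submodule k (V n)) : Prop :=
  ∀ (m n : ℕ) (f : Fin m ↪ Fin n), ∀ x ∈ A m, F.mp f x ∈ A n

theorem FIM.finite (F : FIM k V)
    (huni : ∀ A B, F.Closed A → F.Closed B → (∀ n, Disjoint (A n) (B n)) →
      (∀ n, A n = ⊥) ∨ (∀ n, B n = ⊥)) (m : ℕ) : Module.Finite k (V m) := by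
  let D := lim0 F
  refine D.finite (fun A B hA hB hA0 hB0 hAB => ?_) m
  have hc : ∀ A, D.Inv A → F.Closed fun n => A.comap (D.ev (n := n) Fin.valEmbedding) := by
    intro A hA a b f x hx
    obtain ⟨g, hg⟩ := exists_ext (f.trans Fin.valEmbedding)
    rw [Submodule.mem_comap, D.ev_mp, ← hg, ← D.act_ev]
    exact hA _ _ hx
  have hz : ∀ A : Submodule k (DL F),
      (∀ n, A.comap (D.ev (n := n) Fin.valEmbedding) = ⊥) → A = ⊥ := by
    intro A h
    rw [Submodule.eq_bot_iff]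
    intro z hz
    obtain ⟨n, x, rfl⟩ := D.surj z
    rw [(Submodule.eq_bot_iff _).mp (h n) x hz, map_zero]
  rcases huni _ _ (hc A hA) (hc B hB) (fun n => by
    rw [Submodule.disjoint_def]
    intro x h1 h2
    have : D.ev Fin.valEmbedding x ∈ A ⊓ B := ⟨h1, h2⟩
    rw [hAB, Submodule.mem_bot] at this
    exact (injective_iff_map_eq_zero _).mp (D.inj _) _ this) with h | h
  · exact hA0 (hz A h)
  · exact hB0 (hz B h)

lemma FIM.exists_max (F : FIM k V) (A B : ∀ n, Submodule k (V n)) (hB : F.Closed B)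
    (hAB : ∀ n, Disjoint (A n) (B n)) :
    ∃ B', B ≤ B' ∧ Maximal (fun C => F.Closed C ∧ ∀ n, Disjoint (A n) (C n)) B' := by
  refine zorn_le_nonempty₀ {C | F.Closed C ∧ ∀ n, Disjoint (A n) (C n)} ?_ B ⟨hB, hAB⟩
  intro c hc hch y hy
  have : Nonempty c := ⟨⟨y, hy⟩⟩
  have hdir : ∀ n, Directed (· ≤ ·) fun C : c => C.1 n := fun n a b => by
    obtain ⟨z, hz1, hz2⟩ := hch.directed a b
    exact ⟨z, hz1 n, hz2 n⟩
  refine ⟨fun n => ⨆ C : c, C.1 n, ⟨fun m n f x hx => ?_, fun n => ?_⟩, fun z hz n => ?_⟩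
  · obtain ⟨C, hC⟩ := (Submodule.mem_iSup_of_directed _ (hdir m)).mp hx
    exact (Submodule.mem_iSup_of_directed _ (hdir n)).mpr ⟨C, (hc C.2).1 _ _ f x hC⟩
  · rw [Submodule.disjoint_def]
    intro x h1 h2
    obtain ⟨C, hC⟩ := (Submodule.mem_iSup_of_directed _ (hdir n)).mp h2
    exact Submodule.disjoint_def.mp ((hc C.2).2 n) x h1 hC
  · exact le_iSup (fun C : c => C.1 n) ⟨z, hz⟩

theorem FIM.finite' (F : FIM k V)
    (hinj : ∀ A B, F.Closed A → F.Closed B → (∀ n, Disjoint (A n) (B n)) →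
      ∃ e : ∀ n, V n →ₗ[k] V n, (∀ (m n : ℕ) (f : Fin m ↪ Fin n) x, e n (F.mp f x) = F.mp f (e m x)) ∧
        (∀ n, ∀ x ∈ A n, e n x = x) ∧ ∀ n, ∀ x ∈ B n, e n x = 0)
    (hind : ∀ A B, F.Closed A → F.Closed B → (∀ n, IsCompl (A n) (B n)) →
      (∀ n, A n = ⊥) ∨ (∀ n, B n = ⊥)) (m : ℕ) : Module.Finite k (V m) := by
  refine F.finite (fun A B hA hB hAB => ?_) m
  obtain ⟨B', hBB, hB'⟩ := F.exists_max A B hB hAB
  obtain ⟨A', hAA, hA'⟩ := F.exists_max B' A hA fun n => (hB'.1.2 n).symm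
  obtain ⟨e, he, heA, heB⟩ := hinj A' B' hA'.1.1 hB'.1.1 fun n => (hA'.1.2 n).symm
  have h1 : ∀ n x, e n x ∈ B' n → x ∈ B' n := by
    have := hB'.2 (y := fun n => (B' n).comap (e n)) ⟨fun a b f x hx => by
        rw [Submodule.mem_comap, he]; exact hB'.1.1 _ _ f _ hx, fun n => by
        rw [Submodule.disjoint_def]
        intro x hx hx'
        rw [Submodule.mem_comap, heA n x (hAA n hx)] at hx'
        exact Submodule.disjoint_def.mp (hB'.1.2 n) x hx hx'⟩
      (fun n x hx => by rw [Submodule.mem_comap, heB n x hx]; exact zero_mem _)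
    exact fun n x hx => this n hx
  have h2 : ∀ n x, e n x ∈ A' n := by
    have := hA'.2 (y := fun n => LinearMap.range (e n)) ⟨fun a b f x hx => by
        obtain ⟨y, rfl⟩ := hx
        exact ⟨_, he _ _ f y⟩, fun n => by
        rw [Submodule.disjoint_def]
        rintro _ hx ⟨x, rfl⟩
        exact heB n x (h1 n x hx)⟩
      (fun n x hx => ⟨x, heA n x hx⟩)
    exact fun n x => this n ⟨x, rfl⟩
  rcases hind A' B' hA'.1.1 hB'.1.1 (fun n => ⟨(hA'.1.2 n).symm, by
    rw [codisjoint_iff, eq_top_iff]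
    intro x _
    have h3 : x - e n x ∈ B' n := h1 n _ (by
      rw [map_sub, heA n _ (h2 n x), sub_self]; exact zero_mem _)
    have := Submodule.add_mem_sup (h2 n x) h3
    simpa using this⟩) with h | h
  · exact Or.inl fun n => le_bot_iff.mp (h n ▸ hAA n)
  · exact Or.inr fun n => le_bot_iff.mp (h n ▸ hBB n)

end Pool.Agent.H.MP_b23a2c_al
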